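import Pool.Agent.K3h8.SF.Stm2

/-!
# Partial traces of operators on the first letter
-/

set_option autoImplicit false
set_option linter.unusedSectionVars false
set_option linter.unusedSimpArgs false
set_option backward.isDefEq.respectTransparency false
set_option backward.defeqAttrib.useBackward true

open CategoryTheory Limits MonoidalCategory
open Pool.Agent.Y112.SR Pool.Agent.Y112.KD Pool.Agent.Y112.SC Pool.Agent.R905 Pool.Agent.K3h8.KS
open Pool.Agent.Y116.MT (tr)
open Pool.Agent.K3h8.SF

namespace Pool.Agent.K3h12.SFT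

universe v u w

section

variable {C : Type u} [Category.{v} C] [MonoidalCategory C] [SymmetricCategory C]

lemma fl_zero {X : C} (g : X ⟶ X) : fl 0 g = tp X 0 ◁ g := by
  change ((λ_ X).hom ≫ (ρ_ X).inv) ≫ (g ▷ 𝟙_ C) ≫ ((ρ_ X).hom ≫ (λ_ X).inv) = 𝟙_ C ◁ g
  simp

lemma fl_succ {X : C} (m : ℕ) (g : X ⟶ X) : fl (m + 1) g = fl m g ▷ X := by
  change ((kap X m).inv ▷ X ≫ (α_ X (tp X m) X).hom) ≫ (g ▷ (tp X m ⊗ X)) ≫
    ((α_ X (tp X m) X).inv ≫ (kap X m).hom ▷ X) = ((kap X m).inv ≫ (g ▷ tp X m) ≫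
      (kap X m).hom) ▷ X
  simp

end

section

variable (C : Type u) [Category.{v} C] [Preadditive C] [Linear ℚ C] [MonoidalCategory C]
  [MonoidalPreadditive C] [MonoidalLinear ℚ C] [SymmetricCategory C] [RightRigidCategory C]

/-- PF: partial traces and operators on the first letter. -/
theorem t_PFs : PFs C := by
  intro X m
  induction m with
  | zero =>
    intro w g
    rw [fl_zero]
    rfl
  | succ m ih =>
    intro w g
    rw [fl_succ]
    change pt1 m (ptr (w ≫ (fl m g ▷ X))) = pt1 m (ptr w) ≫ _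
    rw [ptr_comp_right, ih]

variable {C} in
lemma map_tpm {K : Type w} [Field K] (R : SuperRealisation C K) {X : C} {s : X ⟶ X}
    (hs : R.H.map s = R.par X) : ∀ n : ℕ, R.H.map (tpm s n) = R.par (tp X n) := by
  intro n
  induction n with
  | zero =>
    change R.H.map (𝟙 _) = R.par (𝟙_ C)
    rw [R.par_unit, CategoryTheory.Functor.map_id]
  | succ n ih =>
    change R.H.map (tpm s n ⊗ₘ s) = R.par (tp X n ⊗ X)
    rw [← bx_map, ih, hs, bx_par]

variable {C} in
lemma PTn_pt1 {K : Type w} [Field K] (R : SuperRealisation C K) {X : C} : ∀ (m : ℕ)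
    (z : tp X (m + 1) ⟶ tp X (m + 1)), PTn R X m (R.H.map z) = R.H.map (pt1 m z) := by
  intro m
  induction m with
  | zero => exact fun z => rfl
  | succ m ih =>
    intro z
    change PTn R X m (PT R (R.H.map z)) = R.H.map (pt1 m (ptr z))
    rw [PT_map, ih]

/-- TRC: the shape of the partial trace, with parity operators. -/
theorem t_TRC : TRC.{v, u, w} C := by
  intro K _ R X T m i r hS d hd hne s hs
  have hK := R_charZero R
  have h2 : (2 : K) ≠ 0 := two_ne_zero
  obtain ⟨hir, hri⟩ := hS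
  have h3 : R.H.map (tpm s (m + 1) ≫ r ≫ i) = R.par (tp X (m + 1)) ≫ R.H.map (r ≫ i) := by
    rw [Functor.map_comp, map_tpm R hs]
  have hz : RC R X (m + 1) (R.H.map (tpm s (m + 1) ≫ r ≫ i)) := by
    rw [h3]
    exact RC.comp h2 (RC.mon _ (Mon.par (m + 1))) (rc_of_adjoin R hri)
  obtain ⟨α, β, hαβ⟩ := RC.one_shape hK (RC.PTn R m hz)
  refine ⟨α, β, ?_, ?_⟩
  · intro h0
    apply hne
    have t1 := trace_PTn R m (𝟙 (R.H.obj (tp X 1)) + (d : K) • R.par (tp X 1))
      (R.H.map (tpm s (m + 1) ≫ r ≫ i))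
    have hd2 : (d : K) * (d : K) = 1 := by
      rcases hd with rfl | rfl <;> norm_num
    have e1 : R.H.map (tpm s (m + 1) ≫ r ≫ i) ≫ R.par (tp X (m + 1)) = R.H.map (r ≫ i) := by
      rw [h3, Category.assoc, R.par_natural, ← Category.assoc, R.par_sq, Category.id_comp]
    have hα : (α : K) = -((d : K) * β) := by
      have h5 : ((α + d * β : ℚ) : K) = 0 := by rw [h0, Rat.cast_zero]
      push_cast at h5
      linear_combination h5
    have e2 : (𝟙 (R.H.obj (tp X 1)) + (d : K) • R.par (tp X 1)) ≫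
        PTn R X m (R.H.map (tpm s (m + 1) ≫ r ≫ i)) ≫ R.par (tp X 1) = 0 := by
      rw [hαβ]
      simp only [Preadditive.add_comp, Preadditive.comp_add, Linear.smul_comp, Linear.comp_smul,
        Category.id_comp, Category.comp_id, R.par_sq]
      rw [hα]
      have e3 : (β : K) - (d : K) * ((d : K) * β) = 0 := by linear_combination -(β : K) * hd2
      refine Eq.trans (b := ((β : K) - (d : K) * ((d : K) * β)) • 𝟙 (R.H.obj (tp X 1))) ?_ ?_
      · module
      · rw [e3, zero_smul]
    rw [e1, e2] at t1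
    rw [← t1, ModuleCat.hom_zero, map_zero]
  · rw [Functor.map_comp, Functor.map_comp, ← PTn_pt1, hαβ, Preadditive.add_comp,
      Linear.smul_comp, Linear.smul_comp, Category.id_comp, ← R.par_natural (λ_ X).hom,
      Preadditive.comp_add,
      Linear.comp_smul, Linear.comp_smul, ← Category.assoc (R.H.map (λ_ X).inv),
      ← Functor.map_comp, Iso.inv_hom_id, CategoryTheory.Functor.map_id, Category.id_comp]

end

end Pool.Agent.K3h12.SFT
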