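import Pool.Agent.K3h8.SF.Stm

/-!
# Brick XI1: the exchange of the first letters of the last two blocks
-/

set_option autoImplicit false
set_option linter.unusedSectionVars false
set_option linter.unusedSimpArgs false

open CategoryTheory Limits MonoidalCategory
open Pool.Agent.Y112.SR Pool.Agent.Y112.KD Pool.Agent.R905 Pool.Agent.K3h8.KS
open Pool.Agent.K3h8.SF

namespace Pool.Agent.K3h12.SF

universe v u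

section

variable {C : Type u} [Category.{v} C] [MonoidalCategory C] [SymmetricCategory C]

/-- the exchange of the first letters of two blocks -/
def chi (X U : C) : (X ⊗ U) ⊗ (X ⊗ U) ⟶ (X ⊗ U) ⊗ (X ⊗ U) :=
  tensorμ X U X U ≫ ((β_ X X).hom ▷ (U ⊗ U)) ≫ tensorδ X U X U

/-- the exchange of the last letter of `U ⊗ X` with the first letter of `X ⊗ U` -/
def ex (X U : C) : (U ⊗ X) ⊗ (X ⊗ U) ⟶ (U ⊗ X) ⊗ (X ⊗ U) :=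
  (α_ U X (X ⊗ U)).hom ≫ (U ◁ ((α_ X X U).inv ≫ ((β_ X X).hom ▷ U) ≫ (α_ X X U).hom)) ≫
    (α_ U X (X ⊗ U)).inv

theorem chi_eq (X U : C) : chi X U =
    ((β_ X U).hom ▷ (X ⊗ U)) ≫ ex X U ≫ ((β_ X U).inv ▷ (X ⊗ U)) := by
  have h := BraidedCategory.yang_baxter' X U X
  have e1 : tensorμ X U X U = 𝟙 _ ⊗≫ X ◁ (β_ U X).hom ▷ U ⊗≫ 𝟙 _ := by
    rw [tensorμ]
    monoidal
  have e2 : tensorδ X U X U = 𝟙 _ ⊗≫ X ◁ (β_ X U).hom ▷ U ⊗≫ 𝟙 _ := by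
    rw [tensorδ, ← SymmetricCategory.braiding_swap_eq_inv_braiding U X]
    monoidal
  have e3 : (β_ X U).inv = (β_ U X).hom := (SymmetricCategory.braiding_swap_eq_inv_braiding X U).symm
  rw [chi, e1, e2, ex, e3]
  calc _ = 𝟙 ((X ⊗ U) ⊗ (X ⊗ U)) ⊗≫ (𝟙 ((X ⊗ U) ⊗ X) ⊗≫ (X ◁ (β_ U X).hom ⊗≫ (β_ X X).hom ▷ U ⊗≫
      X ◁ (β_ X U).hom) ⊗≫ 𝟙 ((X ⊗ U) ⊗ X)) ▷ U ⊗≫ 𝟙 ((X ⊗ U) ⊗ (X ⊗ U)) := by monoidal
    _ = 𝟙 ((X ⊗ U) ⊗ (X ⊗ U)) ⊗≫ ((β_ X U).hom ▷ X ⊗≫ U ◁ (β_ X X).hom ⊗≫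
      (β_ U X).hom ▷ X) ▷ U ⊗≫ 𝟙 ((X ⊗ U) ⊗ (X ⊗ U)) := by
      rw [← h]
    _ = _ := by monoidal

theorem mu_chi (P Q X U : C) : (tensorμ P Q X U ▷ (X ⊗ U)) ≫ tensorμ (P ⊗ X) (Q ⊗ U) X U ≫
    (sw P X ▷ ((Q ⊗ U) ⊗ U)) =
    (α_ (P ⊗ Q) (X ⊗ U) (X ⊗ U)).hom ≫ ((P ⊗ Q) ◁ chi X U) ≫ (α_ (P ⊗ Q) (X ⊗ U) (X ⊗ U)).inv ≫
      (tensorμ P Q X U ▷ (X ⊗ U)) ≫ tensorμ (P ⊗ X) (Q ⊗ U) X U := by
  have h1 := tensor_associativity P Q X U X U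
  have h2 : (tensorμ P Q X U ▷ (X ⊗ U)) ≫ tensorμ (P ⊗ X) (Q ⊗ U) X U =
      (α_ (P ⊗ Q) (X ⊗ U) (X ⊗ U)).hom ≫ ((P ⊗ Q) ◁ tensorμ X U X U) ≫
      tensorμ P Q (X ⊗ X) (U ⊗ U) ≫ ((α_ P X X).inv ⊗ₘ (α_ Q U U).inv) := by
    have h3 := congrArg (fun z => z ≫ ((α_ P X X).inv ⊗ₘ (α_ Q U U).inv)) h1
    simpa using h3
  have h4 : ((P ⊗ Q) ◁ ((β_ X X).hom ▷ (U ⊗ U))) ≫ tensorμ P Q (X ⊗ X) (U ⊗ U) =
      tensorμ P Q (X ⊗ X) (U ⊗ U) ≫ ((P ◁ (β_ X X).hom) ▷ (Q ⊗ (U ⊗ U))) := by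
    have := tensorμ_natural_right P Q (β_ X X).hom (𝟙 (U ⊗ U))
    simpa using this
  have h5 : ((α_ P X X).inv ⊗ₘ (α_ Q U U).inv) ≫ (sw P X ▷ ((Q ⊗ U) ⊗ U)) =
      ((P ◁ (β_ X X).hom) ▷ (Q ⊗ (U ⊗ U))) ≫ ((α_ P X X).inv ⊗ₘ (α_ Q U U).inv) := by
    rw [← tensorHom_id, ← tensorHom_id, tensorHom_comp_tensorHom, tensorHom_comp_tensorHom,
      Category.comp_id, Category.id_comp, sw, Iso.inv_hom_id_assoc]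
  rw [← Category.assoc (tensorμ P Q X U ▷ (X ⊗ U)), h2]
  simp only [Category.assoc]
  rw [h5, ← reassoc_of% h4, Iso.inv_hom_id_assoc]
  congr 1
  rw [chi]
  simp only [MonoidalCategory.whiskerLeft_comp, Category.assoc]
  rw [← MonoidalCategory.whiskerLeft_comp_assoc (P ⊗ Q) (tensorδ X U X U), tensorδ_tensorμ,
    MonoidalCategory.whiskerLeft_id, Category.id_comp]

theorem zip_chi (X U : C) (k : ℕ) : zip X U (k + 2) ≫ (sw (tp X k) X ▷ tp U (k + 2)) =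
    (α_ (tp (X ⊗ U) k) (X ⊗ U) (X ⊗ U)).hom ≫ (tp (X ⊗ U) k ◁ chi X U) ≫
      (α_ (tp (X ⊗ U) k) (X ⊗ U) (X ⊗ U)).inv ≫ zip X U (k + 2) := by
  have h1 : zip X U (k + 2) = ((zip X U k ▷ (X ⊗ U)) ▷ (X ⊗ U)) ≫
      (tensorμ (tp X k) (tp U k) X U ▷ (X ⊗ U)) ≫ tensorμ (tp X k ⊗ X) (tp U k ⊗ U) X U := by
    show zip X U (k + 1 + 1) = _
    rw [zip_succ X U (k + 1), zip_succ X U k, comp_whiskerRight, Category.assoc]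
  have h2 := mu_chi (tp X k) (tp U k) X U
  rw [h1]
  simp only [Category.assoc]
  have h3 : (tensorμ (tp X k) (tp U k) X U ▷ (X ⊗ U)) ≫ tensorμ (tp X k ⊗ X) (tp U k ⊗ U) X U ≫
      (sw (tp X k) X ▷ tp U (k + 2)) = _ := h2
  rw [h3, associator_naturality_left_assoc, ← whisker_exchange_assoc,
    associator_inv_naturality_left_assoc]

theorem zip_chi' (X U : C) (k : ℕ) : zip X U (k + 2) ≫ (sw (tp X k) X ▷ tp U (k + 2)) ≫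
    unzip X U (k + 2) =
    (α_ (tp (X ⊗ U) k) (X ⊗ U) (X ⊗ U)).hom ≫ (tp (X ⊗ U) k ◁ chi X U) ≫
      (α_ (tp (X ⊗ U) k) (X ⊗ U) (X ⊗ U)).inv := by
  rw [← Category.assoc, zip_chi]
  simp only [Category.assoc]
  rw [zip_unzip, Category.comp_id]

theorem tpm_inv {X Y : C} (f : X ⟶ Y) (g : Y ⟶ X) (h : f ≫ g = 𝟙 X) (n : ℕ) :
    tpm f n ≫ tpm g n = 𝟙 _ := by
  induction n with
  | zero => simp [tpm]
  | succ n ih =>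
    have e1 : tpm f (n + 1) = tpm f n ⊗ₘ f := rfl
    have e2 : tpm g (n + 1) = tpm g n ⊗ₘ g := rfl
    rw [e1, e2, tensorHom_comp_tensorHom, ih, h, id_tensorHom_id]

theorem conj_chi {Z V : C} (a : V ⟶ Z) (b : Z ⟶ V) (W W' : C) (p : W ⟶ W') (p' : W' ⟶ W)
    (hp : p ≫ p' = 𝟙 W) (c : Z ⊗ Z ⟶ Z ⊗ Z) :
    ((p ⊗ₘ a) ⊗ₘ a) ≫ (α_ W' Z Z).hom ≫ (W' ◁ c) ≫ (α_ W' Z Z).inv ≫ ((p' ⊗ₘ b) ⊗ₘ b) =
      (α_ W V V).hom ≫ (W ◁ ((a ⊗ₘ a) ≫ c ≫ (b ⊗ₘ b))) ≫ (α_ W V V).inv := by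
  rw [associator_naturality_assoc, ← associator_inv_naturality]
  congr 1
  rw [← Category.assoc, ← Category.assoc]
  congr 1
  rw [← id_tensorHom, ← id_tensorHom, tensorHom_comp_tensorHom, tensorHom_comp_tensorHom,
    Category.comp_id, hp, Category.assoc]

theorem fx_eq (X : C) (m k : ℕ) : fx m (k + 2) (sw (tp X k) X) =
    (α_ (tp (tp X (m + 1)) k) (tp X (m + 1)) (tp X (m + 1))).hom ≫
      (tp (tp X (m + 1)) k ◁ (((kap X m).inv ⊗ₘ (kap X m).inv) ≫ chi X (tp X m) ≫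
        ((kap X m).hom ⊗ₘ (kap X m).hom))) ≫
      (α_ (tp (tp X (m + 1)) k) (tp X (m + 1)) (tp X (m + 1))).inv := by
  have h1 := zip_chi' X (tp X m) k
  have h2 := conj_chi (Z := X ⊗ tp X m) (V := tp X (m + 1)) (kap X m).inv (kap X m).hom
    (tp (tp X (m + 1)) k) (tp (X ⊗ tp X m) k) (tpm (kap X m).inv k) (tpm (kap X m).hom k)
    (tpm_inv _ _ (kap X m).inv_hom_id k) (chi X (tp X m))
  rw [← h2]
  unfold fx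
  have e1 : tpm (kap X m).inv (k + 2) = (tpm (kap X m).inv k ⊗ₘ (kap X m).inv) ⊗ₘ (kap X m).inv := rfl
  have e2 : tpm (kap X m).hom (k + 2) = (tpm (kap X m).hom k ⊗ₘ (kap X m).hom) ⊗ₘ (kap X m).hom := rfl
  rw [e1, e2]
  congr 1
  have h3 := congrArg (fun z => z ≫ ((tpm (kap X m).hom k ⊗ₘ (kap X m).hom) ⊗ₘ (kap X m).hom)) h1
  simp only [Category.assoc] at h3
  exact h3

theorem rhs_eq (X U V Y : C) (a : V ⟶ X ⊗ U) (b : X ⊗ U ⟶ V) (g : V ⟶ U ⊗ X) (g' : U ⊗ X ⟶ V) :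
    ((Y ◁ g) ▷ V) ≫ ((α_ Y U X).inv ▷ V) ≫
      ((((Y ⊗ U) ⊗ X) ◁ a) ≫ (α_ ((Y ⊗ U) ⊗ X) X U).inv ≫ (sw (Y ⊗ U) X ▷ U) ≫
        (α_ ((Y ⊗ U) ⊗ X) X U).hom ≫ (((Y ⊗ U) ⊗ X) ◁ b)) ≫
      ((α_ Y U X).hom ▷ V) ≫ ((Y ◁ g') ▷ V) =
    (α_ Y V V).hom ≫ (Y ◁ ((g ▷ V) ≫ ((U ⊗ X) ◁ a) ≫ ex X U ≫ ((U ⊗ X) ◁ b) ≫ (g' ▷ V))) ≫
      (α_ Y V V).inv := by
  unfold sw ex
  monoidal

theorem mid_eq (X U V : C) (a : V ⟶ X ⊗ U) (b : X ⊗ U ⟶ V) :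
    (a ⊗ₘ a) ≫ chi X U ≫ (b ⊗ₘ b) = ((a ≫ (β_ X U).hom) ▷ V) ≫ ((U ⊗ X) ◁ a) ≫ ex X U ≫
      ((U ⊗ X) ◁ b) ≫ (((β_ X U).inv ≫ b) ▷ V) := by
  rw [chi_eq, MonoidalCategory.tensorHom_def a a, MonoidalCategory.tensorHom_def' b b]
  simp only [comp_whiskerRight, Category.assoc]
  rw [← whisker_exchange_assoc (β_ X U).hom a, ← whisker_exchange_assoc (β_ X U).inv b]

end

section

variable (C : Type u) [Category.{v} C] [MonoidalCategory C] [SymmetricCategory C]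

/-- **Brick XI1.** -/
theorem t_XI1 : XI1 C := by
  intro X m k
  rw [fx_eq, mid_eq]
  exact (rhs_eq X (tp X m) (tp X (m + 1)) (tp (tp X (m + 1)) k) (kap X m).inv (kap X m).hom
    (gam X m) (gam' X m)).symm

end

end Pool.Agent.K3h12.SF
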